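import Pool.Agent.Q189.HL.Fin2
import Pool.Agent.Q189.HC.Liou
import Pool.Agent.W472.AC.EMeas2

/-!
# Near linear relations between products of hyperlogarithms with coefficients in a number with a transcendence measure
-/

set_option autoImplicit false

open PowerSeries

namespace Pool.Agent.Q189.EP

open Pool.Agent.Y119.ML (LL UU In geo adm adm_tail adm_none const_LL theta_LL theta_In const_In WI)
open Pool.Agent.Y120.GH (cx Cw ou)
open Pool.Agent.Y916.Sl Pool.Agent.Y916.Al Pool.Agent.Q189.MF Pool.Agent.Q246.NR2 Pool.Agent.Q246.LN Pool.Agent.Q246.NR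
open Pool.Agent.Q189.HL Pool.Agent.Q189.HC
open Pool.Agent.TH456.TM (MeasT)

/-- `e` has a transcendence measure -/
theorem measT_e : MeasT (Complex.exp 1) := by
  intro D
  obtain ⟨c, hc, h⟩ := Pool.Agent.W472.AC.e_measP D 1 one_pos
  refine ⟨(D : ℝ) + 1, c, by positivity, hc, fun P hP hPD H hH hPH => ?_⟩
  have h1 := h P hP hPD H hH hPH
  have h2 : Polynomial.aeval (Complex.exp 1) P = ((Polynomial.aeval (Real.exp 1) P : ℝ) : ℂ) := by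
    have h3 : Complex.exp 1 = (algebraMap ℝ ℂ) (Real.exp 1) := by simp
    rw [h3, Polynomial.aeval_algebraMap_apply]
    rfl
  rw [h2, Complex.norm_real, Real.norm_eq_abs]
  exact h1

/-- the length of a polynomial of bounded degree -/
lemma len_le_int {V : Type} [Fintype V] [DecidableEq V] (P : MvPolynomial V ℤ) {d : ℕ} (hP : P.totalDegree ≤ d) (H : ℝ)
    (hH : ∀ e, |((P.coeff e : ℤ) : ℝ)| ≤ H) : len P ≤ ((d : ℝ) + 1) ^ Fintype.card V * H := by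
  have hH0 : 0 ≤ H := (abs_nonneg _).trans (hH 0)
  have h1 : P.support ⊆ Finset.univ.image (fun e : V → Fin (d + 1) => tB e) := by
    intro e he
    obtain ⟨e', he'⟩ := tB_surj P hP e he
    exact Finset.mem_image.2 ⟨e', Finset.mem_univ _, he'⟩
  rw [len_eq P h1]
  calc _ ≤ ∑ _e ∈ Finset.univ.image (fun e : V → Fin (d + 1) => tB e), H := Finset.sum_le_sum fun e _ => by
        rw [Int.norm_eq_abs]
        exact hH e
    _ = ((Finset.univ.image (fun e : V → Fin (d + 1) => tB e)).card : ℝ) * H := by rw [Finset.sum_const, nsmul_eq_mul]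
    _ ≤ _ := by
        refine mul_le_mul_of_nonneg_right ?_ hH0
        have h2 : (Finset.univ.image (fun e : V → Fin (d + 1) => tB e)).card ≤ (d + 1) ^ Fintype.card V := by
          refine Finset.card_image_le.trans (le_of_eq ?_)
          rw [Finset.card_univ, Fintype.card_fun, Fintype.card_fin]
        exact_mod_cast h2

variable {k : ℕ} {r : Fin k → ℕ}

/-- lower bounds for the linear forms in the products with coefficients `P_b(θ, x)` -/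
def GdT (α : ∀ j, Fin (r j) → ℤ) (W d B : ℕ) (θ : ℂ) (x : Fin k → ℂ) (H : ℝ) : Prop :=
  ∀ ℓ : Fin k → ℂ, (∀ j, Complex.exp (ℓ j) = x j) → (∀ j, ‖ℓ j‖ ≤ H) →
    ∀ P : JX r W → MvPolynomial (Option (Fin k)) ℤ, (∀ b, (P b).totalDegree ≤ d) →
      (∀ b e, |(((P b).coeff e : ℤ) : ℝ)| ≤ H) → ∀ b₀, (∃ z : ℂ, MvPolynomial.aeval (op z x) (P b₀) ≠ 0) →
      1 ≤ H ^ B * ‖∑ b, MvPolynomial.aeval (op θ x) (P b) * ∏ j, (ℓ j ^ ((b j).1 : ℕ) * evc (1 / x j) (LL (α j) 0 (b j).2.1))‖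

/-- the places of the variables -/
def oi : Option (Fin k) → Fin 1 ⊕ Fin k := fun o => o.elim (Sum.inl 0) Sum.inr

lemma oi_inj : Function.Injective (oi : Option (Fin k) → Fin 1 ⊕ Fin k) := by
  intro a b h
  rcases a with _ | a <;> rcases b with _ | b
  · rfl
  · exact absurd h (by simp [oi])
  · exact absurd h (by simp [oi])
  · simpa [oi] using h

lemma elim_oi (θ : ℂ) (x : Fin k → ℂ) : (Sum.elim (fun _ : Fin 1 => θ) x) ∘ oi = op θ x := by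
  funext o
  rcases o with _ | j <;> rfl

theorem toT (α : ∀ j, Fin (r j) → ℤ) (W d m B₁ : ℕ) {θ : ℂ} (hθ : MeasT θ) : ∃ B : ℕ, ∀ T : ℕ, 1 ≤ T → ∃ H₀ : ℝ,
    ∀ (x : Fin k → ℂ) (H : ℝ), H₀ ≤ H → (∀ j, AInt m T (x j)) → GdL α W d B₁ (fun _ : Fin 1 => θ) x H →
      GdT α W d B θ x H := by
  classical
  obtain ⟨κ, c, hc, hl⟩ := liouT hθ m k d
  refine ⟨B₁ + 2 * κ + 1, fun T hT => ⟨max (max 1 c⁻¹) (((d : ℝ) + 1) ^ (k + 1) * (T : ℝ) ^ d), fun x H hH hx hg => ?_⟩⟩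
  have hTR : (1 : ℝ) ≤ T := by exact_mod_cast hT
  have hH1 : 1 ≤ H := (le_max_left _ _).trans ((le_max_left _ _).trans hH)
  have hHc : c⁻¹ ≤ H := (le_max_right _ _).trans ((le_max_left _ _).trans hH)
  have hHd : ((d : ℝ) + 1) ^ (k + 1) * (T : ℝ) ^ d ≤ H := (le_max_right _ _).trans hH
  intro ℓ hℓ hℓH P hP hPH b₀ hz
  have h1 := (hg ℓ hℓ hℓH).2 (fun b => MvPolynomial.rename oi (P b)) (fun b => (MvPolynomial.totalDegree_rename_le _ _).trans (hP b))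
    (fun b e => by
      by_cases h : ∃ u, Finsupp.mapDomain oi u = e
      · obtain ⟨u, rfl⟩ := h
        rw [MvPolynomial.coeff_rename_mapDomain _ oi_inj]
        exact hPH b u
      · rw [MvPolynomial.coeff_rename_eq_zero _ _ _ fun u hu => absurd ⟨u, hu⟩ h]
        simpa using (by linarith : (0 : ℝ) ≤ H)) b₀
  simp only [MvPolynomial.aeval_rename, elim_oi] at h1
  set S : ℂ := ∑ b, MvPolynomial.aeval (op θ x) (P b) *
    ∏ j, (ℓ j ^ ((b j).1 : ℕ) * evc (1 / x j) (LL (α j) 0 (b j).2.1)) with hS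
  have hd1 : (1 : ℝ) ≤ ((d : ℝ) + 1) ^ (k + 1) := one_le_pow₀ (by
    have : (0 : ℝ) ≤ d := Nat.cast_nonneg d
    linarith)
  have hlen : len (P b₀) ≤ ((d : ℝ) + 1) ^ (k + 1) * H := by
    have h2 := len_le_int (P b₀) (hP b₀) H (hPH b₀)
    rw [Fintype.card_option, Fintype.card_fin] at h2
    exact h2
  have h2 := hl x T hTR hx (P b₀) (hP b₀) (((d : ℝ) + 1) ^ (k + 1) * H) (by
    calc (1 : ℝ) = 1 * 1 := by norm_num
      _ ≤ _ := mul_le_mul hd1 hH1 zero_le_one (by linarith)) hlen hz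
  have h3 : ((((d : ℝ) + 1) ^ (k + 1) * H) * (T : ℝ) ^ d) ^ κ ≤ H ^ (2 * κ) := by
    rw [pow_mul]
    refine pow_le_pow_left₀ (by positivity) ?_ _
    calc _ = (((d : ℝ) + 1) ^ (k + 1) * (T : ℝ) ^ d) * H := by ring
      _ ≤ H * H := mul_le_mul_of_nonneg_right hHd (by linarith)
      _ = H ^ 2 := by ring
  have h4 : c ≤ H ^ (2 * κ) * (H ^ B₁ * ‖S‖) :=
    h2.trans (mul_le_mul h3 h1 (norm_nonneg _) (by positivity))
  calc (1 : ℝ) = c⁻¹ * c := (inv_mul_cancel₀ hc.ne').symm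
    _ ≤ H * (H ^ (2 * κ) * (H ^ B₁ * ‖S‖)) := mul_le_mul hHc h4 hc.le (by linarith)
    _ = H ^ (B₁ + 2 * κ + 1) * ‖S‖ := by rw [pow_succ, pow_add]; ring

/-- **Near relations** with coefficients in a number with a transcendence measure, for a property which follows from
them at the height `H ^ e`. -/
theorem torT (α : ∀ j, Fin (r j) → ℤ) (hα : ∀ j, Function.Injective (α j)) (h0 : ∀ j a, α j a ≠ 0) (W m d e R₁ : ℕ)
    (hm : 1 ≤ m) (he : 1 ≤ e) {θ : ℂ} (hθ : MeasT θ) (Gd : ℕ → (Fin k → ℂ) → ℝ → Prop)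
    (hgd : ∀ B₀ : ℕ, ∃ B : ℕ, ∀ T : ℕ, 1 ≤ T → ∃ H₀ : ℝ, ∀ x H, H₀ ≤ H → (∀ j, AInt m T (x j)) →
      (∀ j, (R₁ : ℝ) < ‖x j‖) → GdT α W d B₀ θ x (H ^ e) → Gd B x H)
    (hmono : ∀ B x H H', 1 ≤ H → H ≤ H' → H' ≤ H ^ 2 → Gd B x H' → Gd (2 * B) x H) :
    ∃ (B : ℕ) (C c : ℝ), 0 < c ∧ ∀ T : ℕ, 1 ≤ T →
    (∃ H₀ : ℝ, ∀ H₁ : ℝ, H₀ ≤ H₁ →
      (({x : Fin k → ℂ | (∀ j, SInt m T (x j)) ∧ ¬ ∀ H : ℝ, H₁ ≤ H → H ≤ H₁ ^ Real.exp ((T : ℝ) ^ c) →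
        Gd B x H}.ncard : ℕ) : ℝ) ≤ C * (T : ℝ) ^ (-c) * (({ξ : ℂ | SInt m T ξ}.ncard : ℕ) : ℝ) ^ k) ∧
    (({x : Fin k → ℂ | (∀ j, SInt m T (x j)) ∧ ¬ ∀ N₀ : ℕ, ∃ N, N₀ ≤ N ∧
      (({j : ℕ | j < N ∧ ¬ ∀ H : ℝ, 2 ^ (2 ^ j) ≤ H → H ≤ 2 ^ (2 ^ (j + 1)) → Gd B x H}.ncard : ℕ) : ℝ) ≤
          (T : ℝ) ^ (-c) * N}.ncard : ℕ) : ℝ) ≤ C * (T : ℝ) ^ (-c) * (({ξ : ℂ | SInt m T ξ}.ncard : ℕ) : ℝ) ^ k := by
  classical
  choose K hK hs using fun j => size_hl (α j) W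
  have h1 := torD (r := fun j => nn (r j) W * nn (r j) W) (h := fun j => hl (α j) W) (fun j => fam_hl (α j) W)
    (fun j => ⟨K j, hs j⟩) (fun j => conn_hl (α j) (hα j) (h0 j) W) 1 m (d + k * (W + 1)) (e * 2) R₁ hm (by omega)
    (fun (_ : Unit) _ => θ) (fun B _ x H => Gd B x H) (fun B₀ => ?_) (fun B _ x H H' h1 h2 h3 hg => hmono B x H H' h1 h2 h3 hg)
  · obtain ⟨B, C, c, hc, h2⟩ := h1
    refine ⟨B, C, c, hc, fun T hT => ?_⟩
    obtain ⟨⟨H₀, h3⟩, h4⟩ := h2 T hT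
    exact ⟨⟨H₀, fun H₁ hH => h3 H₁ hH ()⟩, h4 ()⟩
  · obtain ⟨B₁, H₁, hB₁⟩ := Pool.Agent.Q189.HL.hgd α hα h0 W 1 d B₀
    obtain ⟨B₂, hB₂⟩ := toT α W d m B₁ hθ
    obtain ⟨B, hB⟩ := hgd B₂
    refine ⟨B, fun T hT => ?_⟩
    obtain ⟨H₂, hH₂⟩ := hB₂ T hT
    obtain ⟨H₃, hH₃⟩ := hB T hT
    refine ⟨max (max H₁ H₂) (max H₃ 1), fun _ x H hH hx hR hg => ?_⟩
    have hH1 : 1 ≤ H := (le_max_right _ _).trans ((le_max_right _ _).trans hH)
    have hHe : H ≤ H ^ e := le_self_pow₀ hH1 (by omega)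
    have ha : H₁ ≤ H ^ e := ((le_max_left _ _).trans ((le_max_left _ _).trans hH)).trans hHe
    have hb : H₂ ≤ H ^ e := ((le_max_right _ _).trans ((le_max_left _ _).trans hH)).trans hHe
    have hc : H₃ ≤ H := (le_max_left _ _).trans ((le_max_right _ _).trans hH)
    refine hH₃ x H hc hx hR (hH₂ x (H ^ e) hb hx (hB₁ _ x (H ^ e) ha ?_))
    rw [← pow_mul]
    exact hg

end Pool.Agent.Q189.EP
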