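import Pool.Agent.Q189.EP.Base
import Pool.Agent.TH456.TM.E

/-!
# Near relations with coefficients in a number with a transcendence measure: the final form
-/

set_option autoImplicit false

open PowerSeries

namespace Pool.Agent.Q189.EP

open Pool.Agent.Y119.ML (LL UU In geo adm adm_tail adm_none const_LL theta_LL theta_In const_In WI)
open Pool.Agent.Y120.GH (cx Cw ou)
open Pool.Agent.Y916.Sl Pool.Agent.Y916.Al Pool.Agent.Q189.MF Pool.Agent.Q246.NR2 Pool.Agent.Q246.LN Pool.Agent.Q246.NR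
open Pool.Agent.Q189.HL Pool.Agent.Q189.HC
open Pool.Agent.TH456.TM (MeasT)

variable {k : ℕ} {r : Fin k → ℕ}

lemma GdT.mono {α : ∀ j, Fin (r j) → ℤ} {W d B : ℕ} {θ : ℂ} {x : Fin k → ℂ} {H H' : ℝ} (h1 : 1 ≤ H)
    (h2 : H ≤ H') (h3 : H' ≤ H ^ 2) (hg : GdT α W d B θ x H') : GdT α W d (2 * B) θ x H := by
  intro ℓ hℓ hℓH P hP hPH b₀ hb
  refine (hg ℓ hℓ (fun j => (hℓH j).trans h2) P hP (fun b e => (hPH b e).trans h2) b₀ hb).trans ?_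
  refine mul_le_mul_of_nonneg_right ?_ (norm_nonneg _)
  rw [pow_mul]
  exact pow_le_pow_left₀ (by linarith) h3 _

/-- the case `Gd = GdT` -/
theorem mainT (α : ∀ j, Fin (r j) → ℤ) (hα : ∀ j, Function.Injective (α j)) (h0 : ∀ j a, α j a ≠ 0) (W m d : ℕ)
    (hm : 1 ≤ m) {θ : ℂ} (hθ : MeasT θ) :
    ∃ (B : ℕ) (C c : ℝ), 0 < c ∧ ∀ T : ℕ, 1 ≤ T →
    (∃ H₀ : ℝ, ∀ H₁ : ℝ, H₀ ≤ H₁ →
      (({x : Fin k → ℂ | (∀ j, SInt m T (x j)) ∧ ¬ ∀ H : ℝ, H₁ ≤ H → H ≤ H₁ ^ Real.exp ((T : ℝ) ^ c) →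
        GdT α W d B θ x H}.ncard : ℕ) : ℝ) ≤ C * (T : ℝ) ^ (-c) * (({ξ : ℂ | SInt m T ξ}.ncard : ℕ) : ℝ) ^ k) ∧
    (({x : Fin k → ℂ | (∀ j, SInt m T (x j)) ∧ ¬ ∀ N₀ : ℕ, ∃ N, N₀ ≤ N ∧
      (({j : ℕ | j < N ∧ ¬ ∀ H : ℝ, 2 ^ (2 ^ j) ≤ H → H ≤ 2 ^ (2 ^ (j + 1)) → GdT α W d B θ x H}.ncard : ℕ) : ℝ) ≤
          (T : ℝ) ^ (-c) * N}.ncard : ℕ) : ℝ) ≤ C * (T : ℝ) ^ (-c) * (({ξ : ℂ | SInt m T ξ}.ncard : ℕ) : ℝ) ^ k :=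
  torT α hα h0 W m d 1 0 hm le_rfl hθ (fun B x H => GdT α W d B θ x H)
    (fun B₀ => ⟨B₀, fun _ _ => ⟨0, fun x H _ _ _ hg => by simpa using hg⟩⟩)
    (fun _ _ _ _ h1 h2 h3 hg => GdT.mono h1 h2 h3 hg)

/-- numbers algebraic over `ℤ[e]` -/
theorem measT_over_e {θ : ℂ} (h : IsAlgebraic (Algebra.adjoin ℤ ({Complex.exp 1} : Set ℂ)) θ)
    (hθ : Transcendental ℤ θ) : MeasT θ :=
  Pool.Agent.TH456.TM.measT_of_isAlgebraic measT_e θ h hθ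

end Pool.Agent.Q189.EP
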